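import Pool.Agent.Run7.h292.HE.Main

/-!
# MP_5ec99c_ag: there are infinitely many elementary components of `Hilb_r(𝔸³)`

Suppose that no irreducible component of `Hilb_r(𝔸³)` is elementary for `R < r ≤ N`.

* Every nonempty open set of `Hilb_N` contains a point that splits into subschemes of length
  at most `R` (move one disjoint part at a time; adding a fixed disjoint subscheme is continuous).
  In a suitable basis its three multiplication matrices have at most `R N` nonzero entries each,
  at the same places.
* Let `e = 3h`, and let `N` count the monomials of degree `< e` and the `h²` monomials
  `x^a y^b z^(e-a-b)` with `a, b < h`.  For a matrix `t` of size `h² × h²`, let the `h²` monomials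
  `x^(h+a) y^b z^(e-h-a-b)` be the combinations of the former ones given by `t`, and let all other
  monomials of degree `≥ e` vanish.  This gives points `I_t` of `Hilb_N` where the `h⁴` coordinates
  `t` take all values.
* These `h⁴` coordinates are rational functions of the matrices.  On matrices with nonzero entries
  at given `R N` places, and the vector of length `N`, there are at most `(3 R + 1) N < h⁴`
  variables, so that the coordinates satisfy a polynomial relation there.  The product of these
  relations over all choices of places is nonzero at some `I_t`, hence on a nonempty open set, which
  contains no point of the first kind.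

The definitions (`Hilb`, its topology, `IsElementary`) are in `Pool.Agent.Run7.h292.HE.Defs`.
-/

namespace Pool.Agent.Results.MP_5ec99c_ag.InfinitelyManyElementary

open Run7.h292.HE

/-- Let `k` be an algebraically closed field.  The set of pairs `(r, C)`, where `C` is an elementary
irreducible component of `Hilb_r(𝔸³)`, is infinite.  More precisely, for every `R` there is an
elementary irreducible component of `Hilb_r(𝔸³)` for some `r` with
`R < r ≤ 28 (84 R + 29)³`. -/
theorem result (k : Type*) [Field k] [IsAlgClosed k] :
    Set.Infinite {p : Σ r : ℕ, Set (Hilb k 3 r) | IsElementary p.2} ∧
    ∀ R : ℕ, ∃ r : ℕ, R < r ∧ r ≤ 28 * (84 * R + 29) ^ 3 ∧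
      ∃ C : Set (Hilb k 3 r), IsElementary C :=
  ⟨infinite_elementary, exists_elementary⟩

end Pool.Agent.Results.MP_5ec99c_ag.InfinitelyManyElementary
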